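import Pool.Agent.H97.NR.StmtsC

/-! Counting tools for project NR. -/

namespace Pool.NR.CntT

theorem congr {α : Type*} {P Q : α → Prop} (h : ∀ x, P x ↔ Q x) : cnt P = cnt Q := by
  have : P = Q := funext fun x => propext (h x)
  rw [this]

theorem img {α β : Type*} (Q : β → Prop) (f : β → α)
    (hf : ∀ b b', Q b → Q b' → f b = f b' → b = b') :
    cnt (fun x => ∃ b, Q b ∧ f b = x) = cnt Q := by
  symm
  refine Nat.card_eq_of_bijective
    (fun b : {b : β // Q b} => (⟨f b.1, b.1, b.2, rfl⟩ : {x : α // ∃ b, Q b ∧ f b = x})) ⟨?_, ?_⟩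
  · rintro ⟨b, hb⟩ ⟨b', hb'⟩ h
    have := hf b b' hb hb' (congrArg Subtype.val h)
    exact Subtype.ext this
  · rintro ⟨x, b, hb, rfl⟩
    exact ⟨⟨b, hb⟩, rfl⟩

theorem or {α : Type*} [Finite α] (P Q : α → Prop) (h : ∀ x, P x → Q x → False) :
    cnt (fun x => P x ∨ Q x) = cnt P + cnt Q := by
  have hd : Disjoint {x | P x} {x | Q x} := by
    rw [Set.disjoint_left]
    exact fun x hx hx' => h x hx hx'
  have := Set.ncard_union_eq hd (Set.toFinite _) (Set.toFinite _)
  exact this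

theorem prod {α β : Type*} (P : α → Prop) (Q : β → Prop) :
    cnt (fun x : α × β => P x.1 ∧ Q x.2) = cnt P * cnt Q := by
  rw [← Nat.card_prod]
  exact Nat.card_congr
    { toFun := fun x => (⟨x.1.1, x.2.1⟩, ⟨x.1.2, x.2.2⟩)
      invFun := fun x => ⟨(x.1.1, x.2.1), x.1.2, x.2.2⟩
      left_inv := fun x => rfl
      right_inv := fun x => rfl }

theorem tru {α : Type*} : cnt (fun _ : α => True) = Nat.card α :=
  Nat.card_congr (Equiv.subtypeUnivEquiv fun _ => trivial)

theorem fls {α : Type*} : cnt (fun _ : α => False) = 0 := by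
  have : IsEmpty {x : α // False} := ⟨fun x => x.2⟩
  exact Nat.card_of_isEmpty

theorem eqv {α : Type*} (a : α) : cnt (fun x : α => x = a) = 1 := by
  have : Unique {x : α // x = a} := ⟨⟨⟨a, rfl⟩⟩, fun x => Subtype.ext x.2⟩
  exact Nat.card_unique

theorem zmod (p : ℕ) : cnt (fun _ : ZMod p => True) = p := by
  rw [tru, Nat.card_zmod]

/-- count with a fixed side condition -/
theorem cond {α : Type*} (c : Prop) [Decidable c] (P : α → Prop) :
    cnt (fun x => c ∧ P x) = if c then cnt P else 0 := by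
  split_ifs with h
  · exact congr fun x => ⟨fun hx => hx.2, fun hx => ⟨h, hx⟩⟩
  · rw [← fls (α := α)]
    exact congr fun x => ⟨fun hx => h hx.1, fun hx => hx.elim⟩

theorem T22_inj {p : ℕ} {a b c d A B C D a' b' c' d' A' B' C' D' : ZMod p}
    (h : T22 a b c d A B C D = T22 a' b' c' d' A' B' C' D') :
    a = a' ∧ b = b' ∧ c = c' ∧ d = d' ∧ A = A' ∧ B = B' ∧ C = C' ∧ D = D' := by
  refine ⟨?_, ?_, ?_, ?_, ?_, ?_, ?_, ?_⟩
  · exact congrFun (congrFun (congrFun h 0) 0) 0
  · exact congrFun (congrFun (congrFun h 0) 0) 1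
  · exact congrFun (congrFun (congrFun h 0) 1) 0
  · exact congrFun (congrFun (congrFun h 0) 1) 1
  · exact congrFun (congrFun (congrFun h 1) 0) 0
  · exact congrFun (congrFun (congrFun h 1) 0) 1
  · exact congrFun (congrFun (congrFun h 1) 1) 0
  · exact congrFun (congrFun (congrFun h 1) 1) 1

end Pool.NR.CntT
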