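import Pool.Agent.H58.NR.Cnt

namespace Pool.NR

theorem k3a (h1 : NPTStmt) : K3AStmt := by
  intro p _
  obtain ⟨-, -, hp0, -⟩ := h1 p
  have e : ∀ B, NF3bA1 (p := p) B ↔ ∃ x : ZMod p × (ZMod p × (ZMod p × ZMod p)),
      (True ∧ ((x.2.1 = 1 ∧ True) ∨ (x.2.1 = 0 ∧ Pt0 x.2.2.1 x.2.2.2))) ∧
      T22 x.2.1 x.2.2.1 x.2.2.2 0 x.1 0 1 1 = B := by
    intro B
    constructor
    · rintro ⟨α, a, b, c, h⟩
      refine ⟨(α, a, b, c), ⟨trivial, ?_⟩, rfl⟩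
      rcases h with h | h
      · exact Or.inl ⟨h, trivial⟩
      · exact Or.inr h
    · rintro ⟨⟨α, a, b, c⟩, ⟨-, h⟩, rfl⟩
      refine NF3bA1.a1 α a b c ?_
      rcases h with h | h
      · exact Or.inl h.1
      · exact Or.inr h
  rw [CntT.congr e, CntT.img, CntT.prod (fun _ : ZMod p => True)
    (fun y : ZMod p × (ZMod p × ZMod p) => (y.1 = 1 ∧ True) ∨ (y.1 = 0 ∧ Pt0 y.2.1 y.2.2)),
    CntT.or, CntT.prod (fun a : ZMod p => a = 1) (fun _ : ZMod p × ZMod p => True),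
    CntT.prod (fun a : ZMod p => a = 0) (fun x : ZMod p × ZMod p => Pt0 x.1 x.2),
    CntT.zmod, CntT.eqv, CntT.eqv, hp0, CntT.tru, Nat.card_prod, Nat.card_zmod]
  · ring
  · rintro ⟨a, b, c⟩ ⟨h, -⟩ ⟨h', -⟩
    simp only at h h'
    rw [h] at h'
    exact one_ne_zero h'
  · rintro ⟨α, a, b, c⟩ ⟨α', a', b', c'⟩ - - h
    obtain ⟨h1, h2, h3, -, h5, -⟩ := CntT.T22_inj h
    simp only at h1 h2 h3 h5
    rw [h1, h2, h3, h5]

end Pool.NR
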