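import Pool.Agent.H58.NR.Cnt

namespace Pool.NR

theorem k3b (h1 : NPTStmt) : K3BStmt := by
  intro p _
  obtain ⟨hb, -, -, -, -, -, -, hne, hsq⟩ := h1 p
  have h10 : (1 : ZMod p) ≠ 0 := one_ne_zero
  have e : ∀ B, NF3bB (p := p) B ↔
      (∃ x : ZMod p × ZMod p, (x.1 ≠ -1 ∧ True) ∧ T22 1 0 1 x.2 0 1 x.1 0 = B) ∨
      ((∃ x : ZMod p × ZMod p, (x.1 ≠ -1 ∧ Sq0 x.2) ∧ T22 1 0 0 x.2 0 1 x.1 0 = B) ∨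
      ((∃ x : ZMod p × (ZMod p × ZMod p), (x.1 ≠ -1 ∧ (Bit x.2.1 ∧ Bit x.2.2)) ∧
        T22 0 0 x.2.1 x.2.2 0 1 x.1 0 = B) ∨
      ((∃ x : ZMod p, True ∧ T22 1 1 0 x 0 0 1 0 = B) ∨
      ((∃ x : ZMod p, Sq0 x ∧ T22 1 0 0 x 0 0 1 0 = B) ∨
      (∃ x : ZMod p × ZMod p, (Bit x.1 ∧ Bit x.2) ∧ T22 0 x.1 0 x.2 0 0 1 0 = B))))) := by
    intro B
    constructor
    · rintro (⟨γ, d, h⟩ | ⟨γ, d, h, h'⟩ | ⟨γ, c, d, h, h', h''⟩ | ⟨d⟩ | ⟨d, h⟩ | ⟨b, d, h, h'⟩)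
      · exact Or.inl ⟨(γ, d), ⟨h, trivial⟩, rfl⟩
      · exact Or.inr (Or.inl ⟨(γ, d), ⟨h, h'⟩, rfl⟩)
      · exact Or.inr (Or.inr (Or.inl ⟨(γ, c, d), ⟨h, h', h''⟩, rfl⟩))
      · exact Or.inr (Or.inr (Or.inr (Or.inl ⟨d, trivial, rfl⟩)))
      · exact Or.inr (Or.inr (Or.inr (Or.inr (Or.inl ⟨d, h, rfl⟩))))
      · exact Or.inr (Or.inr (Or.inr (Or.inr (Or.inr ⟨(b, d), ⟨h, h'⟩, rfl⟩))))
    · rintro (⟨⟨γ, d⟩, ⟨h, -⟩, rfl⟩ | ⟨⟨γ, d⟩, ⟨h, h'⟩, rfl⟩ | ⟨⟨γ, c, d⟩, ⟨h, h', h''⟩, rfl⟩ |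
        ⟨d, -, rfl⟩ | ⟨d, h, rfl⟩ | ⟨⟨b, d⟩, ⟨h, h'⟩, rfl⟩)
      · exact NF3bB.b1 γ d h
      · exact NF3bB.b2 γ d h h'
      · exact NF3bB.b3 γ c d h h' h''
      · exact NF3bB.b4 d
      · exact NF3bB.b5 d h
      · exact NF3bB.b6 b d h h'
  rw [CntT.congr e, CntT.or, CntT.or, CntT.or, CntT.or, CntT.or, CntT.img, CntT.img, CntT.img,
    CntT.img, CntT.img, CntT.img,
    CntT.prod (fun x : ZMod p => x ≠ -1) (fun _ : ZMod p => True),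
    CntT.prod (fun x : ZMod p => x ≠ -1) (fun x : ZMod p => Sq0 x),
    CntT.prod (fun x : ZMod p => x ≠ -1) (fun x : ZMod p × ZMod p => Bit x.1 ∧ Bit x.2),
    CntT.prod (fun x : ZMod p => Bit x) (fun x : ZMod p => Bit x), CntT.zmod, hb, hsq]
  · have h0 := hne (-1)
    obtain ⟨m, hm⟩ : ∃ m, m = cnt (fun x : ZMod p => x ≠ -1) := ⟨_, rfl⟩
    rw [← hm] at h0 ⊢
    split_ifs with hp2
    · obtain rfl : m = 1 := by omega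
      subst h0; norm_num
    · subst h0; ring
  · rintro ⟨b, d⟩ ⟨b', d'⟩ - - h
    obtain ⟨h1, h2, h3, h4, h5, -⟩ := CntT.T22_inj h
    simp only at h1 h2 h3 h4 h5
    rw [h2, h4]
  · rintro d d' - - h
    exact (CntT.T22_inj h).2.2.2.1
  · rintro d d' - - h
    exact (CntT.T22_inj h).2.2.2.1
  · rintro ⟨γ, c, d⟩ ⟨γ', c', d'⟩ - - h
    obtain ⟨h1, h2, h3, h4, h5, h6, h7, -⟩ := CntT.T22_inj h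
    simp only at h1 h2 h3 h4 h5 h6 h7
    rw [h3, h4, h7]
  · rintro ⟨γ, d⟩ ⟨γ', d'⟩ - - h
    obtain ⟨h1, h2, h3, h4, h5, h6, h7, -⟩ := CntT.T22_inj h
    simp only at h1 h2 h3 h4 h5 h6 h7
    rw [h4, h7]
  · rintro ⟨γ, d⟩ ⟨γ', d'⟩ - - h
    obtain ⟨h1, h2, h3, h4, h5, h6, h7, -⟩ := CntT.T22_inj h
    simp only at h1 h2 h3 h4 h5 h6 h7
    rw [h4, h7]
  · rintro B ⟨x, -, rfl⟩ ⟨y, -, h⟩
    exact h10 (CntT.T22_inj h).1.symm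
  · rintro B ⟨x, -, rfl⟩ (⟨y, -, h⟩ | ⟨y, -, h⟩)
    · exact h10 (CntT.T22_inj h).2.1.symm
    · exact h10 (CntT.T22_inj h).1.symm
  · rintro B ⟨x, -, rfl⟩ (⟨y, -, h⟩ | ⟨y, -, h⟩ | ⟨y, -, h⟩)
    · exact h10 (CntT.T22_inj h).1
    · exact h10 (CntT.T22_inj h).1
    · exact h10 (CntT.T22_inj h).2.2.2.2.2.1.symm
  · rintro B ⟨x, -, rfl⟩ (⟨y, -, h⟩ | ⟨y, -, h⟩ | ⟨y, -, h⟩ | ⟨y, -, h⟩)
    · exact h10 (CntT.T22_inj h).1.symm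
    · exact h10 (CntT.T22_inj h).2.1
    · exact h10 (CntT.T22_inj h).2.2.2.2.2.1.symm
    · exact h10 (CntT.T22_inj h).1.symm
  · rintro B ⟨x, -, rfl⟩ (⟨y, -, h⟩ | ⟨y, -, h⟩ | ⟨y, -, h⟩ | ⟨y, -, h⟩ | ⟨y, -, h⟩)
    · exact h10 (CntT.T22_inj h).2.2.1.symm
    · exact h10 (CntT.T22_inj h).1.symm
    · exact h10 (CntT.T22_inj h).2.1
    · exact h10 (CntT.T22_inj h).2.2.1.symm
    · exact h10 (CntT.T22_inj h).1.symm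

end Pool.NR
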