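import Pool.Agent.H58.NR.Cnt
import Pool.Agent.H97.NR.Stmts

namespace Pool.NR

theorem k3g (h1 : NPTStmt) (h2 : NKRStmt) : K3GStmt := by
  intro p _
  obtain ⟨hb, hp, hp0, -, -, -, -, hne, -⟩ := h1 p
  have hk := h2 p 2 (by norm_num)
  have h10 : (1 : ZMod p) ≠ 0 := one_ne_zero
  have e : ∀ B, NF3bA2 (p := p) B ↔
      (∃ x : ZMod p × (ZMod p × ZMod p), (Bit x.1 ∧ Pt0 x.2.1 x.2.2) ∧
        T22 x.1 x.2.1 x.2.2 0 0 0 0 1 = B) ∨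
      ((∃ x : ZMod p × (ZMod p × ZMod p), (x.1 ≠ 0 ∧ Pt x.2.1 x.2.2) ∧
        T22 1 x.2.1 x.2.2 0 x.1 0 0 1 = B) ∨
      ((∃ x : ZMod p × ZMod p, (KRep p 2 x.1 ∧ Bit x.2) ∧ T22 x.2 0 0 0 x.1 0 0 1 = B) ∨
      (∃ x : ZMod p × (ZMod p × ZMod p), (KRep p 2 x.1 ∧ Pt x.2.1 x.2.2) ∧
        T22 0 x.2.1 x.2.2 0 x.1 0 0 1 = B))) := by
    intro B
    constructor
    · rintro (⟨a, b, c, h, h'⟩ | ⟨α, b, c, h, h'⟩ | ⟨α, a, h, h'⟩ | ⟨α, b, c, h, h'⟩)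
      · exact Or.inl ⟨(a, b, c), ⟨h, h'⟩, rfl⟩
      · exact Or.inr (Or.inl ⟨(α, b, c), ⟨h, h'⟩, rfl⟩)
      · exact Or.inr (Or.inr (Or.inl ⟨(α, a), ⟨h, h'⟩, rfl⟩))
      · exact Or.inr (Or.inr (Or.inr ⟨(α, b, c), ⟨h, h'⟩, rfl⟩))
    · rintro (⟨⟨a, b, c⟩, ⟨h, h'⟩, rfl⟩ | ⟨⟨α, b, c⟩, ⟨h, h'⟩, rfl⟩ | ⟨⟨α, a⟩, ⟨h, h'⟩, rfl⟩ |
        ⟨⟨α, b, c⟩, ⟨h, h'⟩, rfl⟩)
      · exact NF3bA2.a2 a b c h h'
      · exact NF3bA2.a3 α b c h h'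
      · exact NF3bA2.a4 α a h h'
      · exact NF3bA2.a5 α b c h h'
  have npt : ¬ Pt (0 : ZMod p) 0 := by
    rintro (h | ⟨-, h⟩) <;> exact h10 h.symm
  rw [CntT.congr e, CntT.or, CntT.or, CntT.or, CntT.img, CntT.img, CntT.img, CntT.img,
    CntT.prod (fun x : ZMod p => Bit x) (fun y : ZMod p × ZMod p => Pt0 y.1 y.2),
    CntT.prod (fun x : ZMod p => x ≠ 0) (fun y : ZMod p × ZMod p => Pt y.1 y.2),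
    CntT.prod (fun x : ZMod p => KRep p 2 x) (fun y : ZMod p => Bit y),
    CntT.prod (fun x : ZMod p => KRep p 2 x) (fun y : ZMod p × ZMod p => Pt y.1 y.2),
    hb, hp, hp0, hk]
  · have h0 := hne 0
    obtain ⟨m, hm⟩ : ∃ m, m = cnt (fun x : ZMod p => x ≠ 0) := ⟨_, rfl⟩
    rw [← hm] at h0 ⊢
    subst h0
    split_ifs with hp2
    · obtain rfl : m = 1 := by omega
      norm_num
    · have hg : Nat.gcd 2 (m + 1 - 1) = 2 := by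
        have hpr : (m + 1).Prime := Fact.out
        have hodd := hpr.eq_two_or_odd'
        rcases hodd with h | h
        · exact absurd h hp2
        · obtain ⟨k, hk⟩ := h
          have : m = 2 * k := by omega
          rw [this, Nat.add_sub_cancel]
          exact Nat.gcd_eq_left (Dvd.intro k rfl)
      rw [hg]; ring
  · rintro ⟨α, b, c⟩ ⟨α', b', c'⟩ - - h
    obtain ⟨h1, h2, h3, h4, h5, -⟩ := CntT.T22_inj h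
    simp only at h1 h2 h3 h4 h5
    rw [h2, h3, h5]
  · rintro ⟨α, a⟩ ⟨α', a'⟩ - - h
    obtain ⟨h1, h2, h3, h4, h5, -⟩ := CntT.T22_inj h
    simp only at h1 h2 h3 h4 h5
    rw [h1, h5]
  · rintro ⟨α, b, c⟩ ⟨α', b', c'⟩ - - h
    obtain ⟨h1, h2, h3, h4, h5, -⟩ := CntT.T22_inj h
    simp only at h1 h2 h3 h4 h5
    rw [h2, h3, h5]
  · rintro ⟨a, b, c⟩ ⟨a', b', c'⟩ - - h
    obtain ⟨h1, h2, h3, h4, h5, -⟩ := CntT.T22_inj h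
    simp only at h1 h2 h3 h4 h5
    rw [h1, h2, h3]
  · rintro B ⟨⟨α, a⟩, ⟨-, -⟩, rfl⟩ ⟨⟨α', b, c⟩, ⟨-, h'⟩, h⟩
    obtain ⟨h1, h2, h3, h4, h5, -⟩ := CntT.T22_inj h
    simp only at h1 h2 h3 h4 h5 h'
    rw [h2, h3] at h'
    exact npt h'
  · rintro B ⟨⟨α, b, c⟩, ⟨-, hh⟩, rfl⟩ (⟨⟨α', a⟩, ⟨-, h'⟩, h⟩ | ⟨⟨α', b, c⟩, ⟨-, h'⟩, h⟩)
    · obtain ⟨h1, h2, h3, h4, h5, -⟩ := CntT.T22_inj h
      simp only at h1 h2 h3 h4 h5 h' hh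
      rw [← h2, ← h3] at hh
      exact npt hh
    · obtain ⟨h1, h2, h3, h4, h5, -⟩ := CntT.T22_inj h
      exact h10 h1.symm
  · rintro B ⟨⟨a, b, c⟩, ⟨-, hh⟩, rfl⟩ (⟨⟨α', b', c'⟩, ⟨ha, h'⟩, h⟩ | ⟨⟨α', a⟩, ⟨ha, h'⟩, h⟩ |
      ⟨⟨α', b, c⟩, ⟨ha, h'⟩, h⟩)
    · obtain ⟨h1, h2, h3, h4, h5, -⟩ := CntT.T22_inj h
      exact ha h5
    · obtain ⟨h1, h2, h3, h4, h5, -⟩ := CntT.T22_inj h
      exact ha.1 h5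
    · obtain ⟨h1, h2, h3, h4, h5, -⟩ := CntT.T22_inj h
      exact ha.1 h5

end Pool.NR
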