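import Pool.Agent.H58.NR.Cnt
import Pool.Agent.H97.NR.Stmts

namespace Pool.NR

theorem k3q (h0 : AREStmt) (h1 : NPTStmt) : K3QStmt := by
  intro p _
  obtain ⟨hb, -⟩ := h1 p
  obtain ⟨a0, ha0, hu⟩ := h0 p
  have ha00 : a0 ≠ 0 := by
    rintro rfl
    have := ha0.1 0
    simp at this
  have h10 : (1 : ZMod p) ≠ 0 := one_ne_zero
  have e : ∀ B, NF3bQ (p := p) B ↔
      (B = T22 0 0 0 1 0 1 (-1) 0) ∨ ((B = T22 0 0 1 1 0 1 (-1) 0) ∨
      ((B = T22 a0 0 1 1 0 1 (-1) 0) ∨ ((B = T22 0 0 1 0 0 1 (-1) 0) ∨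
      (∃ a : ZMod p, Bit a ∧ T22 a 0 0 0 0 1 (-1) 0 = B)))) := by
    intro B
    constructor
    · rintro (- | - | ⟨a, h⟩ | - | ⟨a, h⟩)
      · exact Or.inl rfl
      · exact Or.inr (Or.inl rfl)
      · rw [hu a h]
        exact Or.inr (Or.inr (Or.inl rfl))
      · exact Or.inr (Or.inr (Or.inr (Or.inl rfl)))
      · exact Or.inr (Or.inr (Or.inr (Or.inr ⟨a, h, rfl⟩)))
    · rintro (rfl | rfl | rfl | rfl | ⟨a, h, rfl⟩)
      · exact NF3bQ.q1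
      · exact NF3bQ.q2
      · exact NF3bQ.q3 a0 ha0
      · exact NF3bQ.q4
      · exact NF3bQ.q5 a h
  rw [CntT.congr e, CntT.or, CntT.or, CntT.or, CntT.or, CntT.img, CntT.eqv, CntT.eqv, CntT.eqv,
    CntT.eqv, hb]
  · intro a a' _ _ h
    exact (CntT.T22_inj h).1
  · rintro B rfl ⟨a, -, h⟩
    obtain ⟨-, -, h3, -⟩ := CntT.T22_inj h
    exact h10 h3.symm
  · rintro B rfl (h | ⟨a, -, h⟩)
    · obtain ⟨-, -, -, h4, -⟩ := CntT.T22_inj h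
      exact h10 h4
    · obtain ⟨-, -, -, h4, -⟩ := CntT.T22_inj h
      exact h10 h4.symm
  · rintro B rfl (h | h | ⟨a, -, h⟩)
    · exact ha00 (CntT.T22_inj h).1.symm
    · obtain ⟨-, -, -, h4, -⟩ := CntT.T22_inj h
      exact h10 h4
    · obtain ⟨-, -, -, h4, -⟩ := CntT.T22_inj h
      exact h10 h4.symm
  · rintro B rfl (h | h | h | ⟨a, -, h⟩)
    · obtain ⟨-, -, h3, -⟩ := CntT.T22_inj h
      exact h10 h3.symm
    · obtain ⟨-, -, h3, -⟩ := CntT.T22_inj h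
      exact h10 h3.symm
    · obtain ⟨-, -, h3, -⟩ := CntT.T22_inj h
      exact h10 h3.symm
    · obtain ⟨-, -, -, h4, -⟩ := CntT.T22_inj h
      exact h10 h4.symm

end Pool.NR
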