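import Pool.Agent.H58.NR.Cnt

namespace Pool.NR

theorem k3s (hA : K3AStmt) (hG : K3GStmt) (hB : K3BStmt) (hQ : K3QStmt) (hT : K3TStmt)
    (hU : K3UStmt) : K3SStmt := by
  intro p _
  have h10 : (1 : ZMod p) ≠ 0 := one_ne_zero
  have e : ∀ B, NF3b (p := p) B ↔ NF3bA1 B ∨ (NF3bA2 B ∨ (NF3bB B ∨ (NF3bQ B ∨
      (NF3bT B ∨ NF3bU B)))) := by
    intro B
    constructor
    · intro h
      cases h with
      | a1 h => exact Or.inl h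
      | a2 h => exact Or.inr (Or.inl h)
      | b h => exact Or.inr (Or.inr (Or.inl h))
      | q h => exact Or.inr (Or.inr (Or.inr (Or.inl h)))
      | t h => exact Or.inr (Or.inr (Or.inr (Or.inr (Or.inl h))))
      | u h => exact Or.inr (Or.inr (Or.inr (Or.inr (Or.inr h))))
    · rintro (h | h | h | h | h | h)
      · exact NF3b.a1 B h
      · exact NF3b.a2 B h
      · exact NF3b.b B h
      · exact NF3b.q B h
      · exact NF3b.t B h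
      · exact NF3b.u B h
  have a1 : ∀ B, NF3bA1 (p := p) B → B 1 1 1 = 1 ∧ B 1 0 1 = 0 ∧ B 1 1 0 = 1 := by
    rintro _ ⟨⟩; exact ⟨rfl, rfl, rfl⟩
  have a2 : ∀ B, NF3bA2 (p := p) B → B 1 1 1 = 1 ∧ B 1 0 1 = 0 ∧ B 1 1 0 = 0 := by
    rintro _ ⟨⟩ <;> exact ⟨rfl, rfl, rfl⟩
  have b : ∀ B, NF3bB (p := p) B → B 1 1 1 = 0 ∧ ((B 1 0 1 = 1 ∧ B 1 1 0 ≠ -1) ∨
      (B 1 0 1 = 0 ∧ B 1 1 0 = 1)) := by
    rintro _ (⟨γ, d, h⟩ | ⟨γ, d, h, h'⟩ | ⟨γ, c, d, h, h', h''⟩ | ⟨d⟩ | ⟨d, h⟩ | ⟨b, d, h, h'⟩)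
    · exact ⟨rfl, Or.inl ⟨rfl, h⟩⟩
    · exact ⟨rfl, Or.inl ⟨rfl, h⟩⟩
    · exact ⟨rfl, Or.inl ⟨rfl, h⟩⟩
    · exact ⟨rfl, Or.inr ⟨rfl, rfl⟩⟩
    · exact ⟨rfl, Or.inr ⟨rfl, rfl⟩⟩
    · exact ⟨rfl, Or.inr ⟨rfl, rfl⟩⟩
  have q : ∀ B, NF3bQ (p := p) B → B 1 1 1 = 0 ∧ B 1 0 1 = 1 ∧ B 1 1 0 = -1 ∧ B 1 0 0 = 0 := by
    rintro _ ⟨⟩ <;> exact ⟨rfl, rfl, rfl, rfl⟩
  have t : ∀ B, NF3bT (p := p) B → B 1 1 1 = 0 ∧ B 1 0 1 = 1 ∧ B 1 1 0 = -1 ∧ B 1 0 0 = 1 := by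
    rintro _ ⟨⟩ <;> exact ⟨rfl, rfl, rfl, rfl⟩
  have u : ∀ B, NF3bU (p := p) B → B 1 1 1 = 0 ∧ B 1 0 1 = 0 ∧ B 1 1 0 = 0 := by
    rintro _ ⟨⟩ <;> exact ⟨rfl, rfl, rfl⟩
  rw [CntT.congr e, CntT.or, CntT.or, CntT.or, CntT.or, CntT.or, hA p, hG p, hB p, hQ p, hT p,
    hU p]
  · split_ifs with hp
    · subst hp; norm_num
    · ring
  · intro B h h'
    obtain ⟨-, -, -, h4⟩ := t B h
    have := u B h'
    exact h10 ((t B h).2.1.symm.trans this.2.1)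
  · intro B h h'
    rcases h' with h' | h'
    · exact h10 ((t B h').2.2.2.symm.trans (q B h).2.2.2)
    · exact h10 ((q B h).2.1.symm.trans (u B h').2.1)
  · intro B h h'
    obtain ⟨-, h2 | h2⟩ := b B h
    · rcases h' with h' | h' | h'
      · exact h2.2 (q B h').2.2.1
      · exact h2.2 (t B h').2.2.1
      · exact h10 (h2.1.symm.trans (u B h').2.1)
    · rcases h' with h' | h' | h'
      · exact h10 ((q B h').2.1.symm.trans h2.1)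
      · exact h10 ((t B h').2.1.symm.trans h2.1)
      · exact h10 (h2.2.symm.trans (u B h').2.2)
  · intro B h h'
    have h1 := (a2 B h).1
    rcases h' with h' | h' | h' | h'
    · exact h10 (h1.symm.trans (b B h').1)
    · exact h10 (h1.symm.trans (q B h').1)
    · exact h10 (h1.symm.trans (t B h').1)
    · exact h10 (h1.symm.trans (u B h').1)
  · intro B h h'
    have h1 := (a1 B h).1
    rcases h' with h' | h' | h' | h' | h'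
    · exact h10 ((a1 B h).2.2.symm.trans (a2 B h').2.2)
    · exact h10 (h1.symm.trans (b B h').1)
    · exact h10 (h1.symm.trans (q B h').1)
    · exact h10 (h1.symm.trans (t B h').1)
    · exact h10 (h1.symm.trans (u B h').1)

end Pool.NR
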