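import Pool.Agent.H58.NR.Cnt

namespace Pool.NR

theorem k3t (h1 : NPTStmt) : K3TStmt := by
  intro p _
  obtain ⟨hb, -⟩ := h1 p
  have e : ∀ B, NF3bT (p := p) B ↔
      (∃ a : ZMod p, True ∧ T22 a 0 0 1 1 1 (-1) 0 = B) ∨
      ((p = 2 ∧ B = T22 0 0 1 1 1 1 (-1) 0) ∨
      ((B = T22 0 0 1 0 1 1 (-1) 0) ∨
      (∃ a : ZMod p, Bit a ∧ T22 a 0 0 0 1 1 (-1) 0 = B))) := by
    intro B
    constructor
    · rintro (⟨a⟩ | hp | - | ⟨a, h⟩)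
      · exact Or.inl ⟨a, trivial, rfl⟩
      · exact Or.inr (Or.inl ⟨hp, rfl⟩)
      · exact Or.inr (Or.inr (Or.inl rfl))
      · exact Or.inr (Or.inr (Or.inr ⟨a, h, rfl⟩))
    · rintro (⟨a, -, rfl⟩ | ⟨hp, rfl⟩ | rfl | ⟨a, h, rfl⟩)
      · exact NF3bT.t1 a
      · exact NF3bT.t2 hp
      · exact NF3bT.t3
      · exact NF3bT.t4 a h
  have h10 : (1 : ZMod p) ≠ 0 := one_ne_zero
  rw [CntT.congr e, CntT.or, CntT.or, CntT.or, CntT.img, CntT.img, CntT.cond, CntT.eqv, CntT.eqv, hb,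
    CntT.zmod]
  · split_ifs with hp
    · subst hp; rfl
    · ring
  · intro a a' _ _ h
    exact (CntT.T22_inj h).1
  · intro a a' _ _ h
    exact (CntT.T22_inj h).1
  · rintro B rfl ⟨a, -, h⟩
    obtain ⟨-, -, h3, -⟩ := CntT.T22_inj h
    exact h10 h3.symm
  · rintro B ⟨-, rfl⟩ (h | ⟨a, -, h⟩)
    · obtain ⟨-, -, -, h4, -⟩ := CntT.T22_inj h
      exact h10 h4
    · obtain ⟨-, -, -, h4, -⟩ := CntT.T22_inj h
      exact h10 h4.symm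
  · rintro B ⟨a, -, rfl⟩ (⟨-, h⟩ | h | ⟨a', -, h⟩)
    · obtain ⟨-, -, h3, -⟩ := CntT.T22_inj h
      exact h10 h3.symm
    · obtain ⟨-, -, h3, -⟩ := CntT.T22_inj h
      exact h10 h3.symm
    · obtain ⟨-, -, -, h4, -⟩ := CntT.T22_inj h
      exact h10 h4.symm

end Pool.NR
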