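import Pool.Agent.H58.NR.Cnt

namespace Pool.NR

theorem k3u (h1 : NPTStmt) : K3UStmt := by
  intro p _
  obtain ⟨hb, -, hp0, -⟩ := h1 p
  have e : ∀ B, NF3bU (p := p) B ↔
      (∃ c : ZMod p, Bit c ∧ T22 0 0 c 1 1 0 0 0 = B) ∨
      (∃ x : ZMod p × ZMod p, Pt0 x.1 x.2 ∧ T22 0 x.1 x.2 0 1 0 0 0 = B) := by
    intro B
    constructor
    · rintro (⟨c, h⟩ | ⟨b, c, h⟩)
      · exact Or.inl ⟨c, h, rfl⟩
      · exact Or.inr ⟨(b, c), h, rfl⟩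
    · rintro (⟨c, h, rfl⟩ | ⟨⟨b, c⟩, h, rfl⟩)
      · exact NF3bU.u1 c h
      · exact NF3bU.u2 b c h
  rw [CntT.congr e, CntT.or, CntT.img, CntT.img, hb, hp0]
  · ring
  · rintro ⟨b, c⟩ ⟨b', c'⟩ - - h
    obtain ⟨-, h2, h3, -⟩ := CntT.T22_inj h
    simp only at h2 h3
    rw [h2, h3]
  · intro c c' _ _ h
    exact (CntT.T22_inj h).2.2.1
  · rintro B ⟨c, -, rfl⟩ ⟨⟨b', c'⟩, -, h⟩
    obtain ⟨-, -, -, h4, -⟩ := CntT.T22_inj h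
    exact zero_ne_one h4

end Pool.NR
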